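import Mathlib
import Pool.Agent.Helper477_holes.Cont2

set_option autoImplicit false

/-!
# Continuously many regular polyhedra with the same lengths of holes and zigzags
-/

namespace Pool.Agent.Results.MP_7b55f3_co.Continuum

open Pool.Agent.Helper477_holes

/-- If all prescribed lengths are long (the entry `0` stands for infinite length), then there are
continuously many regular polyhedra of type `{p, q}` with exactly these lengths of the `j`-holes
and `j`-zigzags, `1 ≤ j ≤ q / 2`: a family, indexed by all sets of natural numbers, of string
C-groups, no two of which are isomorphic as groups with distinguished generators.  Each of these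
groups is isomorphic, as a group, to only countably many of the others. -/
theorem result {p q : ℕ} {h r : ℕ → ℕ} (H : Long p q h r) :
    ∃ (Q : Set ℕ → Type) (_ : ∀ S, Group (Q S)) (ρ : ∀ S, Fin 3 → Q S),
      (∀ S, IsStringC (ρ S) ∧ orderOf (ρ S 1 * ρ S 2) = q ∧
        ∀ j, 1 ≤ j → 2 * j ≤ q →
          orderOf (holeOf (ρ S) j) = hol p h j ∧ orderOf (zigzagOf (ρ S) j) = r j) ∧
      (∀ S S', (∃ e : Q S ≃* Q S', ∀ i, e (ρ S i) = ρ S' i) → S = S') ∧
      ∀ S, {S' | Nonempty (Q S ≃* Q S')}.Countable :=
  continuum H

end Pool.Agent.Results.MP_7b55f3_co.Continuum
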