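import Mathlib
import Pool.Agent.Helper477_holes.Defs2
import Pool.Agent.Helper477_holes.Exact

set_option autoImplicit false

/-!
# The regular polyhedra `{p,q | h_2,…,h_k}_{r_1,…,r_k}` with large lengths exist

If the prescribed lengths are large, then `Γ{p,q | h_2,…,h_k}_{r_1,…,r_k}` is a string C-group, so
it is the group of a regular polyhedron, and all the prescribed lengths are exact.
-/

namespace Pool.Agent.Results.MP_7b55f3_co.ExactLengths

open Pool.Agent.Helper477_holes

/-- If the entries are large in the sense of `Large` (and compatible for `j = q/2`), then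
`Γ{p,q | h_2,…,h_k}_{r_1,…,r_k}` is the group of a regular polyhedron, the vertices have degree
exactly `q`, all prescribed hole and zigzag lengths are attained, and the holes and zigzags
without prescription are infinite (except possibly those whose counterpart has length `4`). -/
theorem result (p q : ℕ) (h r : ℕ → ℕ) (H : Large p q h r) (C : Compat q (hol p h) r) :
    IsStringC (rho p q h r) ∧ orderOf (rho p q h r 1 * rho p q h r 2) = q ∧
    (∀ j, 1 ≤ j → 2 * j ≤ q → hol p h j ≠ 0 → orderOf (hole p q h r j) = hol p h j) ∧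
    (∀ j, 1 ≤ j → 2 * j ≤ q → r j ≠ 0 → orderOf (zigzag p q h r j) = r j) ∧
    (∀ j, 1 ≤ j → 2 * j ≤ q → hol p h j = 0 → (2 * j = q → r j = 0) → r j ≠ 4 →
      ¬ IsOfFinOrder (hole p q h r j)) ∧
    (∀ j, 1 ≤ j → 2 * j ≤ q → r j = 0 → (2 * j = q → hol p h j = 0) → hol p h j ≠ 4 →
      ¬ IsOfFinOrder (zigzag p q h r j)) :=
  ⟨stringC_Gam H, order_q H, fun _ h1 h2 h3 => order_hole H C h1 h2 h3,
    fun _ h1 h2 h3 => order_zigzag H C h1 h2 h3,
    fun _ h1 h2 h3 h4 h5 => orderOf_eq_zero_iff.1 (order_hole_zero H h1 h2 h3 h4 h5),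
    fun _ h1 h2 h3 h4 h5 => orderOf_eq_zero_iff.1 (order_zigzag_zero H h1 h2 h3 h4 h5)⟩

end Pool.Agent.Results.MP_7b55f3_co.ExactLengths
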