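import Mathlib
import Pool.Agent.Helper477_holes.Defs3
import Pool.Agent.Helper477_holes.TwinFin

set_option autoImplicit false

/-!
# Finite regular polyhedra are not determined by the lengths of their holes and zigzags

If there is a finite regular polyhedron with the given lengths and
`1/p + 1/q + ∑ 1/h_j + ∑ 1/r_j ≤ 1/2`, then there are infinitely many finite regular polyhedra with
the same lengths, and the universal one, `{p,q | h_2,…,h_k}_{r_1,…,r_k}`, is infinite.
-/

namespace Pool.Agent.Results.MP_7b55f3_co.FiniteTwins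

open Pool.Agent.Helper477_holes

/-- Let `G`, with the generators `ρ`, be the group of a finite regular polyhedron of type `{p, q}`
with hole lengths `h_j` and zigzag lengths `r_j` (for all `j` or only for those for which a length
is prescribed).  If `1/p + 1/q + ∑ 1/h_j + ∑ 1/r_j ≤ 1/2`, then
`Γ{p,q | h_2,…,h_k}_{r_1,…,r_k}` is infinite, and there are finite regular polyhedra of arbitrarily
large order which have the same lengths and cover the given one. -/
theorem result (p q : ℕ) (h r : ℕ → ℕ) (hp : p ≠ 0) (G : Type) [Group G] [Finite G]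
    (ρ : Fin 3 → G) (hP : HasLengths p q h r ρ) (hs : lenSum p q h r ≤ 1 / 2) :
    Infinite (Gam p q h r) ∧
    ∀ N : ℕ, ∃ (Q : Type) (_ : Group Q) (_ : Finite Q) (ρ' : Fin 3 → Q),
      N ≤ Nat.card Q ∧ HasLengths p q h r ρ' ∧ ∃ π : Q →* G, ∀ i, π (ρ' i) = ρ i := by
  constructor
  · by_contra hcon
    rw [not_infinite_iff_finite] at hcon
    obtain ⟨Q, _, φ, π, hQ, hφ, hN, -, -⟩ :=
      Twin.cover hP hp hs (Nat.card (Gam p q h r) + 1)
    have := Nat.card_le_card_of_surjective φ hφ
    omega
  · intro N
    obtain ⟨Q, hQg, φ, π, hQ, hφ, hN, hL, hπ⟩ := Twin.cover hP hp hs N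
    exact ⟨Q, hQg, hQ, fun i => φ (rho p q h r i), hN, hL, π, hπ⟩

end Pool.Agent.Results.MP_7b55f3_co.FiniteTwins
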