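import Mathlib
import Pool.Agent.Helper477_holes.Final

set_option autoImplicit false

/-!
# `Γ{p,q | h_2,…,h_k}_{r_1,…,r_k}` is infinite if the prescribed lengths are large

For all `q ≥ 3` and all choices of prescribed and unprescribed hole and zigzag lengths.  Lengths
`≥ 6` suffice if the `j`-holes and the `j`-zigzags are never both prescribed, `≥ 9` suffice in
general if `3` does not divide `q`, and `≥ 11` if `3` divides `q`.  See `Large` for the precise
hypothesis.
-/

namespace Pool.Agent.Results.MP_7b55f3_co.LargeEntries

open Pool.Agent.Helper477_holes

/-- The group `Γ{p,q | h_2,…,h_k}_{r_1,…,r_k}` is infinite if its entries are large in the sense of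
`Large`. -/
theorem result (p q : ℕ) (h r : ℕ → ℕ) (H : Large p q h r) : Infinite (Gam p q h r) :=
  infinite H

end Pool.Agent.Results.MP_7b55f3_co.LargeEntries
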